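import Mathlib

open Polynomial

namespace Pool.Agent.Results.MP_0ef770_co.Classification

/-- `IsPR p`: the equation `x - 2 y = p(z)` is partition regular, i.e. every finite colouring of the
positive integers admits positive integers `x, y, z` (not necessarily distinct) of one colour with
`x - 2 y = p(z)`. -/
def IsPR (p : ℤ[X]) : Prop :=
  ∀ (r : ℕ) (c : ℕ → Fin r), ∃ x y z : ℕ, 0 < x ∧ 0 < y ∧ 0 < z ∧
    c x = c y ∧ c y = c z ∧ (x : ℤ) - 2 * (y : ℤ) = p.eval (z : ℤ)

/-! ### A finite van der Waerden theorem and a Brauer type theorem -/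

lemma vdw (r m : ℕ) : ∃ N, ∀ c : ℕ → Fin r, ∃ a d, 0 < a ∧ 0 < d ∧ a + m * d ≤ N ∧
    ∀ i ≤ m, c (a + i * d) = c a := by
  classical
  obtain ⟨ι, _inst, hι⟩ := Combinatorics.Line.exists_mono_in_high_dimension (Fin (m + 1)) (Fin r)
  refine ⟨1 + m * Fintype.card ι, fun c => ?_⟩
  obtain ⟨l, κ, hl⟩ := hι fun v => c (1 + ∑ i, (v i : ℕ))
  -- the line `l` gives an arithmetic progression
  set d : ℕ := (Finset.univ.filter fun i => l.idxFun i = none).card with hd
  set b : ℕ := ∑ i ∈ Finset.univ.filter (fun i => ¬ l.idxFun i = none), (l 0 i : ℕ) with hb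
  have hdpos : 0 < d := by
    obtain ⟨i, hi⟩ := l.proper
    exact Finset.card_pos.2 ⟨i, by simp [hi]⟩
  have hsum : ∀ x : Fin (m + 1), ∑ i, (l x i : ℕ) = b + (x : ℕ) * d := by
    intro x
    rw [← Finset.sum_filter_add_sum_filter_not Finset.univ (fun i => l.idxFun i = none), add_comm]
    congr 1
    · apply Finset.sum_congr rfl
      intro i hi
      have hi' : l.idxFun i ≠ none := by simpa using hi
      obtain ⟨y, hy⟩ := Option.ne_none_iff_exists'.1 hi'
      rw [l.apply_some hy, l.apply_some hy]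
    · rw [Finset.sum_congr rfl (g := fun _ => (x : ℕ))]
      · rw [Finset.sum_const, smul_eq_mul, mul_comm]
      · intro i hi
        have hi' : l.idxFun i = none := by simpa using hi
        rw [l.apply_none _ _ hi']
  refine ⟨1 + b, d, by omega, hdpos, ?_, ?_⟩
  · have h1 := hsum (Fin.last m)
    have h2 : ∑ i, (l (Fin.last m) i : ℕ) ≤ ∑ _i : ι, m := by
      apply Finset.sum_le_sum
      intro i _
      have := (l (Fin.last m) i).2
      omega
    rw [Finset.sum_const, smul_eq_mul, Finset.card_univ] at h2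
    simp only [Fin.val_last] at h1
    rw [h1] at h2
    linarith [mul_comm (Fintype.card ι) m]
  · intro i hi
    have h1 := hl ⟨i, by omega⟩
    have h0 := hl 0
    simp only [hsum] at h1 h0
    simp only [Fin.val_zero, zero_mul, add_zero] at h0
    rw [← add_assoc] at h1
    rw [h1, h0]

lemma brauer_aux (r m s : ℕ) (hs : 0 < s) : ∀ k, ∃ N, ∀ T : Finset (Fin r), T.card ≤ k →
    ∀ c : ℕ → Fin r, (∀ j, 1 ≤ j → j ≤ N → c j ∈ T) →
      ∃ a d, 0 < a ∧ 0 < d ∧ ∀ i ≤ m, c (a + i * d) = c (s * d) := by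
  classical
  intro k
  induction k with
  | zero =>
    refine ⟨1, fun T hT c hc => ?_⟩
    have : T = ∅ := Finset.card_eq_zero.1 (Nat.le_zero.1 hT)
    have h1 := hc 1 le_rfl le_rfl
    rw [this] at h1
    simp at h1
  | succ k ih =>
    obtain ⟨N', hN'⟩ := ih
    obtain ⟨N, hN⟩ := vdw r (m * N' + 1)
    refine ⟨N + s * N * N', fun T hT c hc => ?_⟩
    obtain ⟨a, d, ha, hd, hle, hap⟩ := hN c
    have hdN : d ≤ N := by nlinarith [Nat.zero_le (m * N')]
    have haN : a ≤ N := by nlinarith [Nat.zero_le ((m * N' + 1) * d)]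
    by_cases hcase : ∃ j, 1 ≤ j ∧ j ≤ N' ∧ c (s * (j * d)) = c a
    · obtain ⟨j, hj1, hj2, hj⟩ := hcase
      refine ⟨a, j * d, ha, Nat.mul_pos hj1 hd, fun i hi => ?_⟩
      rw [hj, ← mul_assoc]
      apply hap
      calc i * j ≤ m * N' := Nat.mul_le_mul hi hj2
        _ ≤ m * N' + 1 := Nat.le_succ _
    · push Not at hcase
      have haT : c a ∈ T := hc a ha (haN.trans (Nat.le_add_right _ _))
      have hcard : (T.erase (c a)).card ≤ k := by
        rw [Finset.card_erase_of_mem haT]; omega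
      obtain ⟨a', d', ha', hd', h'⟩ := hN' (T.erase (c a)) hcard (fun j => c (s * (j * d))) (by
        intro j hj1 hj2
        refine Finset.mem_erase.2 ⟨hcase j hj1 hj2, hc _ ?_ ?_⟩
        · exact Nat.mul_pos hs (Nat.mul_pos hj1 hd)
        · calc s * (j * d) ≤ s * (N' * N) := by gcongr
            _ = s * N * N' := by ring
            _ ≤ N + s * N * N' := Nat.le_add_left _ _)
      refine ⟨s * (a' * d), s * d * d', Nat.mul_pos hs (Nat.mul_pos ha' hd),
        Nat.mul_pos (Nat.mul_pos hs hd) hd', fun i hi => ?_⟩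
      have := h' i hi
      rw [show s * (a' * d) + i * (s * d * d') = s * ((a' + i * d') * d) by ring, this]
      congr 1
      ring

lemma brauer (r m s : ℕ) (hs : 0 < s) (c : ℕ → Fin r) :
    ∃ a d, 0 < a ∧ 0 < d ∧ ∀ i ≤ m, c (a + i * d) = c (s * d) := by
  obtain ⟨N, hN⟩ := brauer_aux r m s hs r
  exact hN Finset.univ (by simp) c (fun _ _ _ => Finset.mem_univ _)

lemma isPR_X : IsPR (X : ℤ[X]) := by
  intro r c
  obtain ⟨a, d, ha, hd, h⟩ := brauer r 2 1 one_pos c
  have h0 := h 0 (by omega)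
  have h2 := h 2 (by omega)
  simp only [zero_mul, add_zero, one_mul] at h0 h2
  refine ⟨a + 2 * d, d, a, by omega, hd, ha, h2, h0.symm, ?_⟩
  simp

lemma isPR_neg_two_X : IsPR (C (-2) * X : ℤ[X]) := by
  intro r c
  obtain ⟨a, d, ha, hd, h⟩ := brauer r 1 2 two_pos c
  have h0 := h 0 (by omega)
  have h1 := h 1 (by omega)
  simp only [zero_mul, add_zero, one_mul] at h0 h1
  refine ⟨2 * d, a + d, a, by omega, by omega, ha, h1.symm, h1.trans h0.symm, ?_⟩
  simp
  ring

/-! ### The linear case -/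

/-- last nonzero digit in base `q` -/
def lastDigit (q n : ℕ) : ℕ := (n / q ^ (n.factorization q)) % q

lemma digit_spec (q n : ℕ) (hq : q.Prime) (hn : 0 < n) :
    ∃ k, n = q ^ (n.factorization q) * (q * k + lastDigit q n) ∧ 0 < lastDigit q n ∧
      lastDigit q n < q := by
  refine ⟨n / q ^ (n.factorization q) / q, ?_, ?_, Nat.mod_lt _ hq.pos⟩
  · unfold lastDigit
    rw [Nat.div_add_mod]
    exact (Nat.ordProj_mul_ordCompl_eq_self n q).symm
  · unfold lastDigit
    have := Nat.not_dvd_ordCompl hq hn.ne'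
    exact Nat.pos_of_ne_zero fun h => this (Nat.dvd_of_mod_eq_zero h)

lemma not_isPR_of_fintype {κ : Type} [Fintype κ] (p : ℤ[X]) (c : ℕ → κ)
    (h : ∀ x y z : ℕ, 0 < x → 0 < y → 0 < z → c x = c y → c y = c z →
      (x : ℤ) - 2 * (y : ℤ) ≠ p.eval (z : ℤ)) : ¬ IsPR p := by
  intro hPR
  obtain ⟨x, y, z, hx, hy, hz, h1, h2, h3⟩ := hPR (Fintype.card κ)
    (fun n => Fintype.equivFin κ (c n))
  exact h x y z hx hy hz ((Fintype.equivFin κ).injective h1) ((Fintype.equivFin κ).injective h2) h3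

lemma linear_aux (b : ℤ) (h1 : b ≠ 1) (h2 : b ≠ -2) (h3 : b ≠ -1) (q : ℕ) (hq : q.Prime)
    (hqb : b.natAbs + 4 < q) (x y z : ℕ) (hx : 0 < x) (hy : 0 < y) (hz : 0 < z)
    (hb : b = 0 → z = y)
    (hxy : lastDigit q x = lastDigit q y) (hyz : lastDigit q y = lastDigit q z)
    (he : (x : ℤ) - 2 * (y : ℤ) = b * z) : False := by
  obtain ⟨k1, hk1, hd1, hd1'⟩ := digit_spec q x hq hx
  obtain ⟨k2, hk2, hd2, hd2'⟩ := digit_spec q y hq hy
  obtain ⟨k3, hk3, hd3, hd3'⟩ := digit_spec q z hq hz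
  set v1 := x.factorization q
  set v2 := y.factorization q
  set v3 := z.factorization q
  set D := lastDigit q x with hD
  rw [← hxy] at hk2 hyz
  rw [← hyz] at hk3
  -- common part
  obtain ⟨m, hm1, hm2, hm3, hm⟩ : ∃ m, m ≤ v1 ∧ m ≤ v2 ∧ m ≤ v3 ∧ (m = v1 ∨ m = v2 ∨ m = v3) :=
    ⟨min v1 (min v2 v3), by omega, by omega, by omega, by omega⟩
  have key : ∀ (n v k : ℕ), n = q ^ v * (q * k + D) → m ≤ v →
      ∃ n' : ℤ, (n : ℤ) = (q : ℤ) ^ m * n' ∧ ∃ t : ℤ,
        n' = q * t + (if m = v then (D : ℤ) else 0) := by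
    intro n v k hn hv
    refine ⟨(q : ℤ) ^ (v - m) * (q * k + D), ?_, ?_⟩
    · rw [hn]
      push_cast
      rw [← mul_assoc, ← pow_add]
      congr 2
      omega
    · by_cases hmv : m = v
      · subst hmv
        exact ⟨k, by simp⟩
      · obtain ⟨e, he⟩ : ∃ e, v - m = e + 1 := ⟨v - m - 1, by omega⟩
        refine ⟨(q : ℤ) ^ e * (q * k + D), ?_⟩
        rw [if_neg hmv, he, pow_succ]
        ring
  obtain ⟨x', hx', t1, ht1⟩ := key x v1 k1 hk1 hm1
  obtain ⟨y', hy', t2, ht2⟩ := key y v2 k2 hk2 hm2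
  obtain ⟨z', hz', t3, ht3⟩ := key z v3 k3 hk3 hm3
  have hqm : (q : ℤ) ^ m ≠ 0 := pow_ne_zero _ (by exact_mod_cast hq.ne_zero)
  have he' : x' - 2 * y' = b * z' := by
    have : (q : ℤ) ^ m * (x' - 2 * y') = (q : ℤ) ^ m * (b * z') := by
      rw [hx', hy', hz'] at he
      linear_combination he
    exact mul_left_cancel₀ hqm this
  -- reduce modulo q
  have hdvd : (q : ℤ) ∣ D * ((if m = v1 then 1 else 0) - 2 * (if m = v2 then 1 else 0)
      - b * (if m = v3 then 1 else 0)) := by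
    refine ⟨-(t1 - 2 * t2 - b * t3), ?_⟩
    rw [ht1, ht2, ht3] at he'
    split_ifs at he' ⊢ <;> linear_combination he'
  have hqp : Prime (q : ℤ) := Nat.prime_iff_prime_int.1 hq
  have hDnd : ¬ (q : ℤ) ∣ (D : ℤ) := by
    rw [Int.natCast_dvd_natCast]
    exact Nat.not_dvd_of_pos_of_lt hd1 hd1'
  have hdvd2 := (hqp.dvd_or_dvd hdvd).resolve_left hDnd
  -- if `b = 0` then the valuations of `y, z` agree
  have hb' : b = 0 → v3 = v2 := by
    intro h
    have := hb h
    simp only [v2, v3, this]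
  have hbound : ∀ w : ℤ, (q : ℤ) ∣ w → w.natAbs < q → w = 0 := by
    intro w hw hlt
    exact Int.eq_zero_of_dvd_of_natAbs_lt_natAbs hw (by simpa using hlt)
  have := hbound _ hdvd2 (by split_ifs <;> omega)
  by_cases hb0 : b = 0
  · have := hb' hb0
    subst hb0
    split_ifs at * <;> omega
  · split_ifs at * <;> omega

lemma not_isPR_linear (b : ℤ) (h1 : b ≠ 1) (h2 : b ≠ -2) (h3 : b ≠ -1) :
    ¬ IsPR (C b * X : ℤ[X]) := by
  obtain ⟨q, hq, hqp⟩ := Nat.exists_infinite_primes (b.natAbs + 5)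
  refine not_isPR_of_fintype (κ := Fin q) _
    (fun n => ⟨lastDigit q n, Nat.mod_lt _ hqp.pos⟩) ?_
  intro x y z hx hy hz hxy hyz he
  replace hxy : lastDigit q x = lastDigit q y := congrArg Fin.val hxy
  replace hyz : lastDigit q y = lastDigit q z := congrArg Fin.val hyz
  rw [eval_mul, eval_C, eval_X] at he
  by_cases hb : b = 0
  · refine linear_aux b h1 h2 h3 q hqp (by omega) x y y hx hy hy (fun _ => rfl) hxy rfl ?_
    rw [he, hb]; ring
  · exact linear_aux b h1 h2 h3 q hqp (by omega) x y z hx hy hz (fun h => absurd h hb) hxy hyz he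

/-! ### The nonlinear case -/

lemma poly_bounds (p : ℤ[X]) (hd : 1 ≤ p.natDegree) : ∃ A : ℕ, 0 < A ∧ ∀ z : ℕ, 0 < z →
    (p.eval (z : ℤ)).natAbs ≤ A * z ^ p.natDegree ∧
    z ^ p.natDegree ≤ (p.eval (z : ℤ)).natAbs + A * z ^ (p.natDegree - 1) := by
  classical
  set d := p.natDegree with hdd
  refine ⟨1 + ∑ i ∈ Finset.range (d + 1), (p.coeff i).natAbs, by omega, fun z hz => ?_⟩
  set A := 1 + ∑ i ∈ Finset.range (d + 1), (p.coeff i).natAbs with hA
  have heval : p.eval (z : ℤ) = ∑ i ∈ Finset.range (d + 1), p.coeff i * (z : ℤ) ^ i :=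
    eval_eq_sum_range _
  have hlead : p.coeff d ≠ 0 := by
    have : p ≠ 0 := by
      rintro rfl
      simp [hdd] at hd
    exact leadingCoeff_ne_zero.2 this
  constructor
  · rw [heval]
    calc (∑ i ∈ Finset.range (d + 1), p.coeff i * (z : ℤ) ^ i).natAbs
        ≤ ∑ i ∈ Finset.range (d + 1), (p.coeff i * (z : ℤ) ^ i).natAbs := Int.natAbs_sum_le _ _
      _ ≤ ∑ i ∈ Finset.range (d + 1), (p.coeff i).natAbs * z ^ d := by
          apply Finset.sum_le_sum
          intro i hi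
          rw [Int.natAbs_mul, Int.natAbs_pow, Int.natAbs_natCast]
          gcongr
          exact Nat.lt_succ_iff.1 (Finset.mem_range.1 hi)
      _ = (∑ i ∈ Finset.range (d + 1), (p.coeff i).natAbs) * z ^ d := by rw [Finset.sum_mul]
      _ ≤ A * z ^ d := by gcongr; omega
  · rw [heval, Finset.sum_range_succ]
    set B := ∑ i ∈ Finset.range d, p.coeff i * (z : ℤ) ^ i with hB
    have hBle : B.natAbs ≤ A * z ^ (d - 1) := by
      calc B.natAbs ≤ ∑ i ∈ Finset.range d, (p.coeff i * (z : ℤ) ^ i).natAbs :=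
            Int.natAbs_sum_le _ _
        _ ≤ ∑ i ∈ Finset.range d, (p.coeff i).natAbs * z ^ (d - 1) := by
            apply Finset.sum_le_sum
            intro i hi
            rw [Int.natAbs_mul, Int.natAbs_pow, Int.natAbs_natCast]
            gcongr
            have := Finset.mem_range.1 hi
            omega
        _ = (∑ i ∈ Finset.range d, (p.coeff i).natAbs) * z ^ (d - 1) := by rw [Finset.sum_mul]
        _ ≤ A * z ^ (d - 1) := by
            gcongr
            rw [hA, Finset.sum_range_succ]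
            omega
    have h1 : z ^ d ≤ (p.coeff d * (z : ℤ) ^ d).natAbs := by
      rw [Int.natAbs_mul, Int.natAbs_pow, Int.natAbs_natCast]
      exact Nat.le_mul_of_pos_left _ (Int.natAbs_pos.2 hlead)
    omega

/-- the colouring used for polynomials of degree at least two -/
def bigColour (M K n : ℕ) : Fin (M + 1) × Fin 4 × Fin (K + 1) :=
  (⟨min n M, by omega⟩, ⟨Nat.log 2 (n ^ 2) % 4, Nat.mod_lt _ (by norm_num)⟩,
    ⟨Nat.log 2 ((Nat.log 2 n) ^ 2) % (K + 1), Nat.mod_lt _ (Nat.succ_pos _)⟩)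

lemma log_sq_aux (x y : ℕ) (hy : 0 < y) (h1 : 2 * y ^ 2 ≤ x ^ 2) (h2 : x ^ 2 < 8 * y ^ 2) :
    Nat.log 2 (x ^ 2) % 4 ≠ Nat.log 2 (y ^ 2) % 4 := by
  set L := Nat.log 2 (y ^ 2) with hL
  have hy2 : y ^ 2 ≠ 0 := (pow_pos hy 2).ne'
  have hlow : 2 ^ L ≤ y ^ 2 := Nat.pow_log_le_self 2 hy2
  have hup : y ^ 2 < 2 ^ (L + 1) := Nat.lt_pow_succ_log_self (by norm_num) _
  have hx2 : x ^ 2 ≠ 0 := by
    have := pow_pos hy 2
    omega
  have hge : L + 1 ≤ Nat.log 2 (x ^ 2) := by
    apply Nat.le_log_of_pow_le (by norm_num)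
    rw [pow_succ]; omega
  have hlt : Nat.log 2 (x ^ 2) < L + 4 := by
    apply Nat.log_lt_of_lt_pow hx2
    have : 2 ^ (L + 4) = 8 * 2 ^ (L + 1) := by ring
    omega
  omega

lemma not_isPR_nonlinear (p : ℤ[X]) (hd : 2 ≤ p.natDegree)
    (hfix : ∀ t : ℕ, 0 < t → p.eval (t : ℤ) ≠ -t) : ¬ IsPR p := by
  classical
  obtain ⟨A, hA, hbd⟩ := poly_bounds p (by omega)
  set d := p.natDegree with hdd
  obtain ⟨M, hM⟩ : ∃ M, M = 2 * A + 256 := ⟨_, rfl⟩
  obtain ⟨K', hK'⟩ : ∃ K', K' = 5 * A + 2 * d := ⟨_, rfl⟩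
  obtain ⟨K, hK⟩ : ∃ K, K = K' ^ 2 := ⟨_, rfl⟩
  refine not_isPR_of_fintype (κ := Fin (M + 1) × Fin 4 × Fin (K + 1)) p (bigColour M K) ?_
  intro x y z hx hy hz hxy hyz he
  simp only [bigColour, Prod.mk.injEq, Fin.mk.injEq] at hxy hyz
  obtain ⟨hxy1, hxy2, hxy3⟩ := hxy
  obtain ⟨hyz1, hyz2, hyz3⟩ := hyz
  by_cases hsmall : z < M
  · have hyz' : y = z := by omega
    have hxy' : x = y := by omega
    subst hyz'; subst hxy'
    exact hfix x hx (by rw [← he]; ring)
  have hxM : M ≤ x := by omega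
  have hyM : M ≤ y := by omega
  have hzM : M ≤ z := by omega
  obtain ⟨hb1, hb2⟩ := hbd z hz
  set P := (p.eval (z : ℤ)).natAbs with hP
  have hP2 : z ^ d ≤ 2 * P := by
    have : 2 * (A * z ^ (d - 1)) ≤ z ^ d := by
      obtain ⟨e, he⟩ : ∃ e, d = e + 1 := ⟨d - 1, by omega⟩
      rw [he, Nat.add_sub_cancel, pow_succ]
      nlinarith [pow_pos hz e]
    omega
  have hPeq : ((x : ℤ) - 2 * (y : ℤ)).natAbs = P := by rw [he]
  by_cases hcase : 2 * P < y
  · -- here `x / y` is close to `2`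
    have ha : 3 * y ≤ 2 * x := by omega
    have hb : 2 * x ≤ 5 * y := by omega
    refine log_sq_aux x y hy (by nlinarith) (by nlinarith) hxy2
  · -- here `max x y` is comparable to `z ^ d`
    push Not at hcase
    obtain ⟨w, hwc, hw0, hw1, hw2⟩ : ∃ w : ℕ, Nat.log 2 ((Nat.log 2 w) ^ 2) % (K + 1) =
        Nat.log 2 ((Nat.log 2 z) ^ 2) % (K + 1) ∧ 0 < w ∧ P ≤ 2 * w ∧ w ≤ 5 * P := by
      rcases le_total x y with hle | hle
      · exact ⟨y, hyz3, hy, by omega, by omega⟩
      · exact ⟨x, hxy3.trans hyz3, hx, by omega, by omega⟩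
    set u := Nat.log 2 z with hu
    set u' := Nat.log 2 w with hu'
    have hu8 : 8 ≤ u := by
      apply Nat.le_log_of_pow_le (by norm_num)
      norm_num; omega
    -- lower bound
    have hzlow : 2 ^ u ≤ z := Nat.pow_log_le_self 2 hz.ne'
    have hzup : z < 2 ^ (u + 1) := Nat.lt_pow_succ_log_self (by norm_num) _
    have hwup : w < 2 ^ (u' + 1) := Nat.lt_pow_succ_log_self (by norm_num) _
    have hlow : 2 * u < u' + 3 := by
      have h1 : (2 ^ u) ^ 2 ≤ z ^ d := by
        calc (2 ^ u) ^ 2 ≤ z ^ 2 := by gcongr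
          _ ≤ z ^ d := Nat.pow_le_pow_right hz hd
      have h2 : 2 ^ (2 * u) < 2 ^ (u' + 3) := by
        calc 2 ^ (2 * u) = (2 ^ u) ^ 2 := by rw [← pow_mul, mul_comm]
          _ ≤ 4 * w := by omega
          _ < 4 * 2 ^ (u' + 1) := by omega
          _ = 2 ^ (u' + 3) := by ring
      exact (Nat.pow_lt_pow_iff_right (by norm_num)).1 h2
    -- upper bound
    have hup : u' ≤ K' * u := by
      have h1 : w < 2 ^ (5 * A + (u + 1) * d) := by
        calc w ≤ 5 * P := hw2
          _ ≤ 5 * (A * z ^ d) := by omega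
          _ = (5 * A) * z ^ d := by ring
          _ ≤ (5 * A) * (2 ^ (u + 1)) ^ d := by gcongr
          _ < 2 ^ (5 * A) * (2 ^ (u + 1)) ^ d := by
              apply Nat.mul_lt_mul_of_pos_right Nat.lt_two_pow_self
              positivity
          _ = 2 ^ (5 * A + (u + 1) * d) := by rw [← pow_mul, ← pow_add]
      have h2 : u' < 5 * A + (u + 1) * d := Nat.log_lt_of_lt_pow hw0.ne' h1
      have h3 : 5 * A + (u + 1) * d ≤ K' * u := by
        rw [hK']
        nlinarith [Nat.zero_le A, Nat.zero_le d]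
      omega
    -- compare the logarithms
    set V := Nat.log 2 (u ^ 2) with hV
    have hu2 : u ^ 2 ≠ 0 := by positivity
    have hVlow : 2 ^ V ≤ u ^ 2 := Nat.pow_log_le_self 2 hu2
    have hVup : u ^ 2 < 2 ^ (V + 1) := Nat.lt_pow_succ_log_self (by norm_num) _
    have hu'pos : 0 < u' := by omega
    have hge : V + 1 ≤ Nat.log 2 (u' ^ 2) := by
      have h5 : 3 * u ≤ 2 * u' := by omega
      have h6 : 9 * u ^ 2 ≤ 4 * u' ^ 2 := by
        calc 9 * u ^ 2 = (3 * u) ^ 2 := by ring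
          _ ≤ (2 * u') ^ 2 := Nat.pow_le_pow_left h5 2
          _ = 4 * u' ^ 2 := by ring
      apply Nat.le_log_of_pow_le (by norm_num)
      rw [pow_succ]
      omega
    have hlt : Nat.log 2 (u' ^ 2) < V + 1 + K := by
      apply Nat.log_lt_of_lt_pow (by positivity)
      calc u' ^ 2 ≤ (K' * u) ^ 2 := by gcongr
        _ = K * u ^ 2 := by rw [mul_pow, hK]
        _ ≤ 2 ^ K * u ^ 2 := by gcongr; exact Nat.lt_two_pow_self.le
        _ < 2 ^ K * 2 ^ (V + 1) := by gcongr
        _ = 2 ^ (V + 1 + K) := by rw [← pow_add, add_comm]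
    have hmod : Nat.log 2 (u' ^ 2) % (K + 1) ≠ V % (K + 1) := by
      intro hcon
      have h1 : (Nat.log 2 (u' ^ 2) - V) % (K + 1) = 0 := Nat.sub_mod_eq_zero_of_mod_eq hcon
      have h2 : Nat.log 2 (u' ^ 2) - V < K + 1 := by omega
      rw [Nat.mod_eq_of_lt h2] at h1
      omega
    exact hmod hwc

/-- **Complete answer to Q1.**  Let `p` be an integer polynomial with `p(0) = 0`.  The equation
`x - 2y = p(z)` is partition regular if and only if it has a constant solution `x = y = z = t`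
(that is, `p(t) = -t` for some positive integer `t`), or `p = X`, or `p = -2X`. -/
theorem result (p : ℤ[X]) (hp : p.eval 0 = 0) :
    IsPR p ↔ (∃ t : ℕ, 0 < t ∧ p.eval (t : ℤ) = -t) ∨ p = X ∨ p = C (-2) * X := by
  constructor
  · intro hPR
    by_contra hcon
    push Not at hcon
    obtain ⟨h1, h2, h3⟩ := hcon
    rcases Nat.lt_or_ge p.natDegree 2 with hlt | hge
    · have hform : p = C (p.coeff 1) * X := by
        have := eq_X_add_C_of_natDegree_le_one (p := p) (by omega)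
        have h0 : p.coeff 0 = 0 := by rw [coeff_zero_eq_eval_zero, hp]
        rw [h0] at this
        simpa using this
      rw [hform] at hPR
      refine not_isPR_linear (p.coeff 1) ?_ ?_ ?_ hPR
      · intro h
        apply h2
        rw [hform, h]; simp
      · intro h
        apply h3
        rw [hform, h]
      · intro h
        apply h1 1 one_pos
        rw [hform, h]; simp
    · exact not_isPR_nonlinear p hge (fun t ht => h1 t ht) hPR
  · rintro (⟨t, ht, h⟩ | rfl | rfl)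
    · intro r c
      exact ⟨t, t, t, ht, ht, ht, rfl, rfl, by rw [h]; ring⟩
    · exact isPR_X
    · exact isPR_neg_two_X

end Pool.Agent.Results.MP_0ef770_co.Classification
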